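import Mathlib
import Pool.Agent.H24.FragDefs
import Pool.Agent.H24.Frag2

namespace Pool.Agent.Results.MP_1b53c2_co.Yes
open Pool.Agent.H24.FragDefs

theorem result :
    (∀ (V : Type) [Finite V] (G : SimpleGraph V) (w : ℕ),
      HasCover G (3 / 4) w → IdegLe G (12 * w)) ∧
    ∀ 𝒢 : Set (Σ n : ℕ, SimpleGraph (Fin n)), Fragile 𝒢 → ∃ k : ℕ, ∀ G ∈ 𝒢, IdegLe G.2 k := by
  refine ⟨fun V _ G w h => Pool.Agent.H24.Frag2.main G w ?_, ?_⟩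
  · have : (1 - 1 / ((4 : ℕ) : ℝ)) = 3 / 4 := by norm_num
    rw [this]
    exact h
  · rintro 𝒢 ⟨f, hf⟩
    exact ⟨12 * f 4, fun G hG => Pool.Agent.H24.Frag2.main G.2 _ (hf 4 (by norm_num) G hG)⟩

end Pool.Agent.Results.MP_1b53c2_co.Yes
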